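import Pool.Agent.H53.GC.Targets

/-!
# Row K3L: polymorphisms of the complete graph with three vertices
-/

set_option autoImplicit false

namespace Pool.Agent.H52.GC

open Pool.Agent.H53.GC

theorem two_out : ∀ x : Fin 3, (x ≠ 0 → x ≠ 1 → x = 2) ∧ (x ≠ 0 → x ≠ 2 → x = 1) ∧
    (x ≠ 1 → x ≠ 2 → x = 0) := by
  decide

/-- the binary case -/
theorem binary (h : Fin 3 → Fin 3 → Fin 3) (hh : ∀ a b c d, a ≠ c → b ≠ d → h a b ≠ h c d)
    (hd : ∀ a, h a a = a) : (∀ a b, h a b = a) ∨ (∀ a b, h a b = b) := by
  have k : ∀ a b c, a ≠ c → b ≠ c → h a b ≠ c := fun a b c h1 h2 => by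
    have := hh a b c c h1 h2
    rwa [hd c] at this
  have h01 : h 0 1 = 0 ∨ h 0 1 = 1 := by
    by_cases h1 : h 0 1 = 0
    · exact Or.inl h1
    · exact Or.inr ((two_out _).2.1 h1 (k 0 1 2 (by decide) (by decide)))
  rcases h01 with h01 | h01
  · have h10 : h 1 0 = 1 := (two_out _).2.1
      (fun e => hh 1 0 0 1 (by decide) (by decide) (e.trans h01.symm)) (k 1 0 2 (by decide) (by decide))
    have h20 : h 2 0 = 2 := (two_out _).1
      (fun e => hh 2 0 0 1 (by decide) (by decide) (e.trans h01.symm)) (k 2 0 1 (by decide) (by decide))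
    have h02 : h 0 2 = 0 := (two_out _).2.2 (k 0 2 1 (by decide) (by decide))
      (fun e => hh 0 2 2 0 (by decide) (by decide) (e.trans h20.symm))
    have h21 : h 2 1 = 2 := (two_out _).1 (k 2 1 0 (by decide) (by decide))
      (fun e => hh 2 1 1 0 (by decide) (by decide) (e.trans h10.symm))
    have h12 : h 1 2 = 1 := (two_out _).2.1 (k 1 2 0 (by decide) (by decide))
      (fun e => hh 1 2 2 1 (by decide) (by decide) (e.trans h21.symm))
    left
    intro a b
    fin_cases a <;> fin_cases b <;> simp_all
  · have h10 : h 1 0 = 0 := (two_out _).2.2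
      (fun e => hh 1 0 0 1 (by decide) (by decide) (e.trans h01.symm)) (k 1 0 2 (by decide) (by decide))
    have h12 : h 1 2 = 2 := (two_out _).1 (k 1 2 0 (by decide) (by decide))
      (fun e => hh 1 2 0 1 (by decide) (by decide) (e.trans h01.symm))
    have h21 : h 2 1 = 1 := (two_out _).2.1 (k 2 1 0 (by decide) (by decide))
      (fun e => hh 2 1 1 2 (by decide) (by decide) (e.trans h12.symm))
    have h02 : h 0 2 = 2 := (two_out _).1
      (fun e => hh 0 2 1 0 (by decide) (by decide) (e.trans h10.symm)) (k 0 2 1 (by decide) (by decide))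
    have h20 : h 2 0 = 0 := (two_out _).2.2 (k 2 0 1 (by decide) (by decide))
      (fun e => hh 2 0 0 2 (by decide) (by decide) (e.trans h02.symm))
    right
    intro a b
    fin_cases a <;> fin_cases b <;> simp_all

section idem

open Classical

variable {I : Type} (g : (I → Fin 3) → Fin 3)

/-- the vector with the value `a` on `U` and `b` off `U` -/
noncomputable def vec (U : Set I) (a b : Fin 3) : I → Fin 3 := fun i => if i ∈ U then a else b

/-- the set `U` wins -/
def Win (U : Set I) : Prop := ∀ a b, g (vec U a b) = a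

variable {g} (hg : ∀ x y : I → Fin 3, (∀ i, x i ≠ y i) → g x ≠ g y)
  (hc : ∀ a : Fin 3, g (fun _ => a) = a)

include hg hc in
theorem win_or (U : Set I) : Win g U ∨ Win g Uᶜ := by
  have h1 := binary (fun a b => g (vec U a b)) (fun a b c d hac hbd => by
    apply hg
    intro i
    unfold vec
    by_cases hi : i ∈ U
    · rw [if_pos hi, if_pos hi]
      exact hac
    · rw [if_neg hi, if_neg hi]
      exact hbd) (fun a => by
    have : vec U a a = fun _ => a := by
      funext i
      unfold vec
      split_ifs <;> rfl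
    show g (vec U a a) = a
    rw [this, hc])
  rcases h1 with h1 | h1
  · exact Or.inl h1
  · right
    intro a b
    have : vec Uᶜ a b = vec U b a := by
      funext i
      unfold vec
      by_cases hi : i ∈ U
      · rw [if_pos hi, if_neg (fun h => h hi)]
      · rw [if_neg hi, if_pos (show i ∈ Uᶜ from hi)]
    rw [this]
    exact h1 b a

include hg in
theorem val_of_win {U : Set I} (hU : Win g U) {x : I → Fin 3} {a : Fin 3}
    (hx : ∀ i, i ∈ U ↔ x i = a) : g x = a := by
  by_contra hne
  -- the value `b = g x` differs from `a`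
  have h1 : g (vec U (g x) a) = g x := hU (g x) a
  refine hg x (vec U (g x) a) (fun i => ?_) h1.symm
  unfold vec
  by_cases hi : i ∈ U
  · rw [if_pos hi, (hx i).1 hi]
    exact fun h => hne h.symm
  · rw [if_neg hi]
    exact fun h => hi ((hx i).2 h)

include hg in
theorem not_disj {U V : Set I} (hU : Win g U) (hV : Win g V) (hd : ∀ i, i ∈ U → i ∉ V) :
    False := by
  have h1 : g (fun i => if i ∈ U then 0 else if i ∈ V then 1 else 2) = 0 := by
    apply val_of_win hg hU
    intro i
    by_cases hi : i ∈ U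
    · simp [hi]
    · by_cases hi' : i ∈ V <;> simp [hi, hi']
  have h2 : g (fun i => if i ∈ U then 0 else if i ∈ V then 1 else 2) = 1 := by
    apply val_of_win hg hV
    intro i
    by_cases hi : i ∈ U
    · simp [hi, hd i hi]
    · by_cases hi' : i ∈ V <;> simp [hi, hi']
  rw [h1] at h2
  exact absurd h2 (by decide)

include hg hc in
theorem split_win {U P Q : Set I} (hU : Win g U) (hPQ : ∀ i, i ∈ U ↔ i ∈ P ∨ i ∈ Q)
    (hd : ∀ i, i ∈ P → i ∉ Q) : Win g P ∨ Win g Q := by
  by_contra hcon
  push Not at hcon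
  obtain ⟨hP, hQ⟩ := hcon
  have hP' := (win_or hg hc P).resolve_left hP
  have hQ' := (win_or hg hc Q).resolve_left hQ
  set x : I → Fin 3 := fun i => if i ∈ P then 0 else if i ∈ Q then 1 else 2 with hx
  have h0 : g x ≠ 0 := by
    intro h
    have h1 : g (vec Pᶜ 0 1) = 0 := hP' 0 1
    refine hg x (vec Pᶜ 0 1) (fun i => ?_) (h.trans h1.symm)
    unfold vec
    by_cases hi : i ∈ P
    · simp [hx, hi]
    · by_cases hi' : i ∈ Q <;> simp [hx, hi, hi']
  have h1 : g x ≠ 1 := by
    intro h
    have h1 : g (vec Qᶜ 1 0) = 1 := hQ' 1 0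
    refine hg x (vec Qᶜ 1 0) (fun i => ?_) (h.trans h1.symm)
    unfold vec
    by_cases hi : i ∈ P
    · simp [hx, hi, hd i hi]
    · by_cases hi' : i ∈ Q <;> simp [hx, hi, hi']
  have h2 : g x ≠ 2 := by
    intro h
    have h1 : g (vec U 2 0) = 2 := hU 2 0
    refine hg x (vec U 2 0) (fun i => ?_) (h.trans h1.symm)
    unfold vec
    by_cases hi : i ∈ P
    · have hiU : i ∈ U := (hPQ i).2 (Or.inl hi)
      simp [hx, hi, hiU]
    · by_cases hi' : i ∈ Q
      · have hiU : i ∈ U := (hPQ i).2 (Or.inr hi')
        simp [hx, hi, hi', hiU]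
      · have hiU : i ∉ U := fun h' => ((hPQ i).1 h').elim hi hi'
        simp [hx, hi, hi', hiU]
  have : ∀ a : Fin 3, a ≠ 0 → a ≠ 1 → a ≠ 2 → False := by decide
  exact this _ h0 h1 h2

include hg hc in
theorem idem_case [Finite I] : ∃ i : I, ∀ x, g x = x i := by
  have huniv : Win g Set.univ := by
    intro a b
    have : vec (Set.univ : Set I) a b = fun _ => a := by
      funext i
      simp [vec]
    rw [this, hc]
  -- a winning set of minimal cardinality
  obtain ⟨U, hU, hmin⟩ : ∃ U : Set I, Win g U ∧ ∀ V : Set I, Win g V → U.ncard ≤ V.ncard := by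
    have hne : ∃ n, ∃ U : Set I, Win g U ∧ U.ncard = n := ⟨_, Set.univ, huniv, rfl⟩
    obtain ⟨U, hU, hn⟩ := Nat.find_spec hne
    refine ⟨U, hU, fun V hV => ?_⟩
    rw [hn]
    exact Nat.find_min' hne ⟨V, hV, rfl⟩
  have hUne : U.Nonempty := by
    rw [Set.nonempty_iff_ne_empty]
    rintro rfl
    have h1 : g (vec (∅ : Set I) 0 1) = 0 := hU 0 1
    have h2 : vec (∅ : Set I) 0 1 = fun _ => 1 := by
      funext i
      simp [vec]
    rw [h2, hc] at h1
    exact absurd h1 (by decide)
  obtain ⟨i, hi⟩ := hUne
  have hUi : Win g {i} := by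
    rcases split_win hg hc (U := U) (P := {i}) (Q := U \ {i}) hU (fun j => by
      simp only [Set.mem_singleton_iff, Set.mem_sdiff]
      constructor
      · intro h
        by_cases hj : j = i
        · exact Or.inl hj
        · exact Or.inr ⟨h, hj⟩
      · rintro (rfl | h)
        · exact hi
        · exact h.1) (fun j hj h => h.2 hj) with h | h
    · exact h
    · exfalso
      have h1 := hmin _ h
      have h2 : (U \ {i}).ncard < U.ncard := Set.ncard_sdiff_singleton_lt_of_mem hi (Set.toFinite U)
      omega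
  refine ⟨i, fun x => ?_⟩
  rcases win_or hg hc {j | x j = x i} with h | h
  · exact val_of_win hg h (fun j => Iff.rfl)
  · exfalso
    refine not_disj hg hUi h (fun j hj hj' => ?_)
    rw [Set.mem_singleton_iff] at hj
    exact hj' (by rw [hj]; exact rfl)

end idem

theorem pf_K3L : T_K3L := by
  intro I _ g hg
  set u : Fin 3 → Fin 3 := fun a => g (fun _ => a) with hu
  by_cases hI : Nonempty I
  · have huinj : Function.Injective u := by
      intro a b hab
      by_contra hne
      exact hg (fun _ => a) (fun _ => b) (fun _ => hne) hab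
    have hub : Function.Bijective u := Finite.injective_iff_bijective.1 huinj
    set e : Fin 3 ≃ Fin 3 := Equiv.ofBijective u hub with he
    obtain ⟨i, hi⟩ := idem_case (I := I) (g := fun x => e.symm (g x))
      (fun x y hxy h => hg x y hxy (e.symm.injective h)) (fun a => by
        show e.symm (g fun _ => a) = a
        rw [Equiv.symm_apply_eq]
        rfl)
    refine ⟨i, u, huinj, fun x => ?_⟩
    have h1 := hi x
    rw [Equiv.symm_apply_eq] at h1
    exact h1
  · exfalso
    rw [not_nonempty_iff] at hI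
    exact hg (fun _ => 0) (fun _ => 0) (fun i => (hI.false i).elim) rfl

end Pool.Agent.H52.GC
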